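import Pool.Agent.Lib.MP_688fd0_co.LIN.Iface
import Pool.Agent.Lib.MP_688fd0_co.LP.Conn

/-!
Module CHAINP (helper3): from monochromatic windows to a path.
-/

set_option autoImplicit false

namespace Pool.Agent.Lib.MP_688fd0_co.LIN.H3

open Classical
open Pool.Agent.Lib.MP_688fd0_co.LP (IsP Conn Cyc)
open Pool.Agent.Lib.MP_688fd0_co.LIN

universe u

section gen

variable {V : Type u} [Fintype V]

lemma mem_cyc {H : SimpleGraph V} {v x : V} : x ∈ cyc H v ↔ H.Reachable v x := by
  simp [cyc]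

lemma mem_cov {H : SimpleGraph V} {v : V} : v ∈ cov H ↔ ∃ w, H.Adj v w := by
  simp [cov]

lemma cov_of_reach {H : SimpleGraph V} {v x : V} (hv : v ∈ cov H) (h : H.Reachable v x) : x ∈ cov H := by
  by_cases hxv : x = v
  · rw [hxv]; exact hv
  · obtain ⟨p⟩ := h.symm
    cases p with
    | nil => exact absurd rfl hxv
    | cons h _ => exact mem_cov.2 ⟨_, h⟩

lemma cyc_eq_of_reach {H : SimpleGraph V} {v x : V} (h : H.Reachable v x) : cyc H x = cyc H v := by
  ext y
  rw [mem_cyc, mem_cyc]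
  exact ⟨fun h' => h.trans h', fun h' => h.symm.trans h'⟩

lemma cycs_eq {H : SimpleGraph V} {K : Finset V} (hK : K ∈ cycs H) {x : V} (hx : x ∈ K) : cyc H x = K := by
  unfold cycs at hK
  rw [Finset.mem_image] at hK
  obtain ⟨v, hv, rfl⟩ := hK
  exact cyc_eq_of_reach (mem_cyc.1 hx)

lemma cycs_cov {H : SimpleGraph V} {K : Finset V} (hK : K ∈ cycs H) {x : V} (hx : x ∈ K) : x ∈ cov H := by
  unfold cycs at hK
  rw [Finset.mem_image] at hK
  obtain ⟨v, hv, rfl⟩ := hK
  exact cov_of_reach hv (mem_cyc.1 hx)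

lemma cyc_mem_cycs {H : SimpleGraph V} {v : V} (hv : v ∈ cov H) : cyc H v ∈ cycs H :=
  Finset.mem_image.2 ⟨v, hv, rfl⟩

lemma self_mem_cyc {H : SimpleGraph V} {v : V} : v ∈ cyc H v := mem_cyc.2 (SimpleGraph.Reachable.refl v)

lemma reach_in {H : SimpleGraph V} {K : Finset V} (hK : K ∈ cycs H) {x y : V} (hx : x ∈ K) :
    y ∈ K ↔ H.Reachable x y := by
  rw [← cycs_eq hK hx, mem_cyc]

/-- a walk that leaves `F` -/
lemma exit {H : SimpleGraph V} {F : Set V} {x y : V} (hx : x ∈ F) (hy : y ∉ F) (h : H.Reachable x y) :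
    ∃ z z', Conn H F x z ∧ H.Adj z z' ∧ z' ∉ F := by
  obtain ⟨p⟩ := h
  induction p with
  | nil => exact absurd hx hy
  | @cons a b c hab p ih =>
    by_cases hb : b ∈ F
    · obtain ⟨z, z', h1, h2, h3⟩ := ih hb hy
      exact ⟨z, z', (LP.Conn.single hx hab hb).trans h1, h2, h3⟩
    · exact ⟨a, b, LP.Conn.refl hx, hab, hb⟩

lemma reach_of_conn {H : SimpleGraph V} {F : Set V} {x y : V} (h : Conn H F x y) : H.Reachable x y := by
  obtain ⟨_, h⟩ := h
  induction h with
  | refl => exact SimpleGraph.Reachable.refl x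
  | @tail b c _ hbc ih => exact ih.trans hbc.1.reachable

lemma dist_step {G : SimpleGraph V} (hG : G.Connected) (o : V) {x y : V} (h : G.Adj x y) :
    G.dist o y ≤ G.dist o x + 1 := by
  have h1 := hG.dist_triangle (u := o) (v := x) (w := y)
  have h2 : G.dist x y = 1 := SimpleGraph.dist_eq_one_iff_adj.2 h
  omega

/-- intermediate heights -/
lemma ivt {G H : SimpleGraph V} (hG : G.Connected) (hH : H ≤ G) {F : Set V} (o : V) {x y : V}
    (h : Conn H F x y) (c : ℕ)
    (hc : (G.dist o x ≤ c ∧ c ≤ G.dist o y) ∨ (G.dist o y ≤ c ∧ c ≤ G.dist o x)) :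
    ∃ u, Conn H F x u ∧ G.dist o u = c := by
  obtain ⟨hx, h⟩ := h
  induction h with
  | refl => exact ⟨x, LP.Conn.refl hx, by omega⟩
  | @tail b d hb hbd ih =>
    have h1 := dist_step hG o (hH hbd.1)
    have h2 := dist_step hG o (hH hbd.1.symm)
    by_cases hcb : (G.dist o x ≤ c ∧ c ≤ G.dist o b) ∨ (G.dist o b ≤ c ∧ c ≤ G.dist o x)
    · exact ih hcb
    · exact ⟨d, ⟨hx, hb.tail hbd⟩, by omega⟩

lemma isP_infix {G : SimpleGraph V} {l c : List V} (hl : IsP G l) (hc : c <:+: l) (hne : c ≠ []) : IsP G c := by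
  refine ⟨hne, ?_, hl.2.2.sublist hc.sublist⟩
  obtain ⟨s, t, rfl⟩ := hc
  exact hl.2.1.left_of_append.right_of_append

/-- cutting a path to a connection -/
lemma cut {G H : SimpleGraph V} {A B : Finset V} : ∀ (n : ℕ) (l : List V), l.length ≤ n → IsP G l →
    (∃ a ∈ A, l.head? = some a) → (∃ b ∈ B, l.getLast? = some b) →
    (∀ v ∈ l, v ∈ cov H → v ∈ A ∨ v ∈ B) →
    ∃ c, IsP G c ∧ (∃ a ∈ A, c.head? = some a) ∧ (∃ b ∈ B, c.getLast? = some b) ∧
      (∀ v ∈ c.tail.dropLast, v ∉ cov H) ∧ ∀ v ∈ c, v ∈ l := by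
  intro n
  induction n with
  | zero =>
    intro l hl hP
    exact absurd (List.length_eq_zero_iff.1 (Nat.le_zero.1 hl)) hP.1
  | succ n ih =>
    intro l hl hP hA hB hcov
    by_cases hin : ∀ v ∈ l.tail.dropLast, v ∉ cov H
    · exact ⟨l, hP, hA, hB, hin, fun v hv => hv⟩
    · push Not at hin
      obtain ⟨v, hv, hvc⟩ := hin
      obtain ⟨s, t, hst⟩ := List.append_of_mem hv
      have hne : l.tail ≠ [] := by
        intro h
        rw [h] at hv
        simp at hv
      have h1 : l.tail = (s ++ v :: t) ++ [l.tail.getLast hne] := by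
        rw [← hst]
        exact (List.dropLast_append_getLast hne).symm
      obtain ⟨a, haA, ha⟩ := hA
      have h2 : l = a :: l.tail := by
        cases l with
        | nil => simp at ha
        | cons x l => simp at ha; subst ha; rfl
      set e := l.tail.getLast hne with he
      have h3 : l = (a :: s) ++ (v :: (t ++ [e])) := by
        rw [h2, h1]; simp
      have hvl : v ∈ l := by rw [h3]; simp
      rcases hcov v hvl hvc with hvA | hvB
      · have hin : (v :: (t ++ [e])) <:+: l := ⟨a :: s, [], by rw [h3]; simp⟩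
        obtain ⟨c, c1, c2, c3, c4, c5⟩ := ih (v :: (t ++ [e])) (by
            have := congrArg List.length h3
            simp at this ⊢
            omega) (isP_infix hP hin (by simp)) ⟨v, hvA, by simp⟩ (by
            obtain ⟨b, hbB, hb⟩ := hB
            refine ⟨b, hbB, ?_⟩
            rw [← hb, h3, List.getLast?_append_of_ne_nil _ (by simp)])
            (fun x hx => hcov x (hin.subset hx))
        exact ⟨c, c1, c2, c3, c4, fun x hx => hin.subset (c5 x hx)⟩
      · have hin : ((a :: s) ++ [v]) <:+: l := ⟨[], t ++ [e], by rw [h3]; simp⟩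
        obtain ⟨c, c1, c2, c3, c4, c5⟩ := ih ((a :: s) ++ [v]) (by
            have := congrArg List.length h3
            simp at this ⊢
            omega) (isP_infix hP hin (by simp)) ⟨a, haA, by simp⟩
            ⟨v, hvB, by rw [List.getLast?_append_of_ne_nil _ (by simp)]; rfl⟩
            (fun x hx => hcov x (hin.subset hx))
        exact ⟨c, c1, c2, c3, c4, fun x hx => hin.subset (c5 x hx)⟩

end gen

/-- sorting a finite set by an injective function -/
lemma sort_fun {α : Type*} (f : α → ℕ) : ∀ (N : ℕ) (A : Finset α), A.card = N + 1 → Set.InjOn f (A : Set α) →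
    ∃ D : ℕ → α, (∀ i ≤ N, D i ∈ A) ∧ (∀ K ∈ A, ∃ i ≤ N, D i = K) ∧
      (∀ i j, i < j → j ≤ N → f (D i) < f (D j)) := by
  intro N
  induction N with
  | zero =>
    intro A hA _
    obtain ⟨K, rfl⟩ := Finset.card_eq_one.1 hA
    refine ⟨fun _ => K, fun i _ => by simp, fun K' hK' => ⟨0, le_refl 0, ?_⟩, fun i j hij hj => by omega⟩
    exact (Finset.mem_singleton.1 hK').symm
  | succ N ih =>
    intro A hA hinj
    obtain ⟨K0, hK0, hmax⟩ := Finset.exists_max_image A f (Finset.card_pos.1 (by omega))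
    obtain ⟨D, h1, h2, h3⟩ := ih (A.erase K0) (by rw [Finset.card_erase_of_mem hK0]; omega)
      (hinj.mono (by intro x hx; exact Finset.mem_of_mem_erase hx))
    refine ⟨fun i => if i ≤ N then D i else K0, ?_, ?_, ?_⟩
    · intro i hi
      by_cases hN : i ≤ N
      · simp only [hN, if_true]
        exact Finset.mem_of_mem_erase (h1 i hN)
      · simp only [hN, if_false]
        exact hK0
    · intro K hK
      by_cases hKK : K = K0
      · exact ⟨N + 1, le_refl _, by simp [hKK]⟩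
      · obtain ⟨i, hi, hiK⟩ := h2 K (Finset.mem_erase.2 ⟨hKK, hK⟩)
        exact ⟨i, by omega, by simp only [hi, if_true]; exact hiK⟩
    · intro i j hij hj
      have hiN : i ≤ N := by omega
      by_cases hjN : j ≤ N
      · simp only [hiN, hjN, if_true]
        exact h3 i j hij hjN
      · simp only [hiN, hjN, if_true, if_false]
        have h4 := h1 i hiN
        have h5 := hmax (D i) (Finset.mem_of_mem_erase h4)
        rcases Nat.lt_or_ge (f (D i)) (f K0) with h6 | h6
        · exact h6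
        · exfalso
          exact (Finset.mem_erase.1 h4).1
            (hinj (Finset.mem_coe.2 (Finset.mem_of_mem_erase h4)) (Finset.mem_coe.2 hK0) (le_antisymm h5 h6))


section ctx

variable {V : Type u} [Fintype V]

/-- the part of `om` between two heights -/
noncomputable def strip (G : SimpleGraph V) (γ : ℕ → V) (w D a b : ℕ) : Finset V :=
  (om G γ w D).filter (fun x => a ≤ G.dist (γ 0) x ∧ G.dist (γ 0) x ≤ b)

lemma mem_strip {G : SimpleGraph V} {γ : ℕ → V} {w D a b : ℕ} {x : V} :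
    x ∈ strip G γ w D a b ↔ x ∈ om G γ w D ∧ a ≤ G.dist (γ 0) x ∧ G.dist (γ 0) x ≤ b := by
  unfold strip
  rw [Finset.mem_filter]

/-- all hypotheses -/
structure Ctx (G H : SimpleGraph V) (w D : ℕ) (γ : ℕ → V) (S : ℕ) (τ : ℕ → ℕ) (l : ℕ) : Prop where
  conn : G.Connected
  cf : CF G H
  wpos : 1 ≤ w
  lpos : 1 ≤ l
  long : ∀ v ∈ cov H, l ≤ (cyc H v).card
  lo : 20 * w ≤ τ 0
  hi : τ S + 50 * w ≤ D
  step : ∀ s < S, τ s + 30 * w ≤ τ (s + 1)
  small : ∀ s < S, (strip G γ w D (τ s) (τ (s + 1) + 30 * w)).card * 3 < l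
  nb : ∀ x ∈ om G γ w D, 20 * w ≤ G.dist (γ 0) x → G.dist (γ 0) x + 20 * w ≤ D → ∀ x', G.Adj x x' →
    x' ∈ om G γ w D
  path : ∀ a b, ∀ x ∈ om G γ w D, ∀ y ∈ om G γ w D, a ≤ G.dist (γ 0) x → a ≤ G.dist (γ 0) y →
    G.dist (γ 0) x ≤ b → G.dist (γ 0) y ≤ b → ∃ l, IsP G l ∧ l.head? = some x ∧ l.getLast? = some y ∧
      ∀ v ∈ l, v ∈ om G γ w D ∧ a ≤ G.dist (γ 0) v + w ∧ G.dist (γ 0) v ≤ b + w
  mono : ∀ s ≤ S, ∀ x ∈ cov H, ∀ y ∈ cov H, x ∈ om G γ w D → y ∈ om G γ w D →
      τ s + 5 * w ≤ G.dist (γ 0) x → G.dist (γ 0) x ≤ τ s + 25 * w →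
      τ s + 5 * w ≤ G.dist (γ 0) y → G.dist (γ 0) y ≤ τ s + 25 * w → H.Reachable x y

/-- the cycle `K` has a vertex in the middle of window `s` -/
def hit (G : SimpleGraph V) (w D : ℕ) (γ : ℕ → V) (τ : ℕ → ℕ) (s : ℕ) (K : Finset V) : Prop :=
  ∃ z ∈ K, z ∈ om G γ w D ∧ G.dist (γ 0) z = τ s + 15 * w

variable {G H : SimpleGraph V} {w D : ℕ} {γ : ℕ → V} {S : ℕ} {τ : ℕ → ℕ} {l : ℕ}

lemma tau_lt (C : Ctx G H w D γ S τ l) : ∀ j i, i < j → j ≤ S → τ i + 30 * w ≤ τ j := by
  intro j
  induction j with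
  | zero => intro i hi; omega
  | succ j ih =>
    intro i hi hj
    have h1 := C.step j (by omega)
    rcases Nat.lt_or_ge i j with h | h
    · have := ih i h (by omega)
      omega
    · have : i = j := by omega
      subst this
      exact h1

lemma tau_le (C : Ctx G H w D γ S τ l) {i j : ℕ} (h : i ≤ j) (hj : j ≤ S) : τ i ≤ τ j := by
  rcases Nat.lt_or_ge i j with h1 | h1
  · have := tau_lt C j i h1 hj
    omega
  · have : i = j := by omega
    rw [this]

lemma hit_unique (C : Ctx G H w D γ S τ l) {s : ℕ} (hs : s ≤ S) {K K' : Finset V} (hK : K ∈ cycs H)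
    (hK' : K' ∈ cycs H) (h : hit G w D γ τ s K) (h' : hit G w D γ τ s K') : K = K' := by
  obtain ⟨z, hz, hzo, hzh⟩ := h
  obtain ⟨z', hz', hzo', hzh'⟩ := h'
  have := C.mono s hs z (cycs_cov hK hz) z' (cycs_cov hK' hz') hzo hzo' (by omega) (by omega) (by omega) (by omega)
  rw [← cycs_eq hK hz, ← cycs_eq hK' hz']
  exact (cyc_eq_of_reach this).symm

/-- exit of a strip -/
lemma exit_strip (C : Ctx G H w D γ S τ l) {K : Finset V} (hK : K ∈ cycs H) {a b : ℕ} (ha : 20 * w ≤ a)
    (hb : b + 20 * w ≤ D) {x y : V} (hx : x ∈ K) (hxs : x ∈ strip G γ w D a b) (hy : y ∈ K)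
    (hys : y ∉ strip G γ w D a b) :
    ∃ z, z ∈ K ∧ z ∈ om G γ w D ∧ Conn H (↑(strip G γ w D a b)) x z ∧
      (G.dist (γ 0) z = a ∨ G.dist (γ 0) z = b) := by
  obtain ⟨z, z', h1, h2, h3⟩ := exit (F := (↑(strip G γ w D a b) : Set V)) (by exact_mod_cast hxs)
    (by exact_mod_cast hys) ((reach_in hK hx).1 hy)
  have hz : z ∈ strip G γ w D a b := by exact_mod_cast LP.Conn.right h1
  rw [mem_strip] at hz
  have hz' : z' ∈ om G γ w D := C.nb z hz.1 (by omega) (by omega) z' (C.cf.le h2)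
  refine ⟨z, (reach_in hK hx).2 (reach_of_conn h1), hz.1, h1, ?_⟩
  have h4 : ¬ (a ≤ G.dist (γ 0) z' ∧ G.dist (γ 0) z' ≤ b) := by
    intro h
    exact h3 (by exact_mod_cast mem_strip.2 ⟨hz', h⟩)
  have h5 := dist_step C.conn (γ 0) (C.cf.le h2)
  have h6 := dist_step C.conn (γ 0) (C.cf.le h2.symm)
  omega

lemma hit_of_conn (C : Ctx G H w D γ S τ l) {K : Finset V} (hK : K ∈ cycs H) {a b : ℕ} {x z : V} (hx : x ∈ K)
    (h : Conn H (↑(strip G γ w D a b)) x z) (j : ℕ)
    (hj : (G.dist (γ 0) x ≤ τ j + 15 * w ∧ τ j + 15 * w ≤ G.dist (γ 0) z) ∨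
      (G.dist (γ 0) z ≤ τ j + 15 * w ∧ τ j + 15 * w ≤ G.dist (γ 0) x)) : hit G w D γ τ j K := by
  obtain ⟨u, hu, huh⟩ := ivt C.conn C.cf.le (γ 0) h _ hj
  have h1 : u ∈ strip G γ w D a b := by exact_mod_cast LP.Conn.right hu
  exact ⟨u, (reach_in hK hx).2 (reach_of_conn hu), (mem_strip.1 h1).1, huh⟩

/-- a cycle that hits `s` and `s''` but not `s'` hits everything outside -/
lemma gap_low (C : Ctx G H w D γ S τ l) {K : Finset V} (hK : K ∈ cycs H) {s s' s'' : ℕ} (h1 : s < s')
    (h2 : s' < s'') (h3 : s'' ≤ S) (hs : hit G w D γ τ s K) (hs' : ¬ hit G w D γ τ s' K)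
    (hs'' : hit G w D γ τ s'' K) : ∀ j ≤ s, hit G w D γ τ j K := by
  intro j hj
  obtain ⟨z, hz, hzo, hzh⟩ := hs
  obtain ⟨z'', hz'', hzo'', hzh''⟩ := hs''
  have t0 : τ 0 ≤ τ j := tau_le C (Nat.zero_le j) (by omega)
  have t1 : τ j ≤ τ s := tau_le C hj (by omega)
  have t2 := tau_lt C s' s h1 (by omega)
  have t3 := tau_lt C s'' s' h2 h3
  have t4 := tau_le C h3 (le_refl S)
  have hlo := C.lo
  have hhi := C.hi
  have hw := C.wpos
  obtain ⟨u, hu, huo, huc, huh⟩ := exit_strip C hK (a := 20 * w) (b := τ s' + 15 * w) (le_refl _) (by omega) hz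
    (mem_strip.2 ⟨hzo, by omega, by omega⟩) hz'' (by
      rw [mem_strip]
      rintro ⟨-, -, h⟩
      omega)
  rcases huh with h | h
  · exact hit_of_conn C hK hz huc j (by omega)
  · exact absurd ⟨u, hu, huo, h⟩ hs'

lemma gap_high (C : Ctx G H w D γ S τ l) {K : Finset V} (hK : K ∈ cycs H) {s s' s'' : ℕ} (h1 : s < s')
    (h2 : s' < s'') (h3 : s'' ≤ S) (hs : hit G w D γ τ s K) (hs' : ¬ hit G w D γ τ s' K)
    (hs'' : hit G w D γ τ s'' K) : ∀ j, s'' ≤ j → j ≤ S → hit G w D γ τ j K := by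
  intro j hj hjS
  obtain ⟨z, hz, hzo, hzh⟩ := hs
  obtain ⟨z'', hz'', hzo'', hzh''⟩ := hs''
  have t0 : τ 0 ≤ τ s := tau_le C (Nat.zero_le s) (by omega)
  have t1 : τ s'' ≤ τ j := tau_le C hj (by omega)
  have t2 := tau_lt C s' s h1 (by omega)
  have t3 := tau_lt C s'' s' h2 h3
  have t4 := tau_le C hjS (le_refl S)
  have hlo := C.lo
  have hhi := C.hi
  have hw := C.wpos
  obtain ⟨u, hu, huo, huc, huh⟩ := exit_strip C hK (a := τ s' + 15 * w) (b := D - 20 * w) (by omega) (by omega) hz''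
    (mem_strip.2 ⟨hzo'', by omega, by omega⟩) hz (by
      rw [mem_strip]
      rintro ⟨-, h, -⟩
      omega)
  rcases huh with h | h
  · exact absurd ⟨u, hu, huo, h⟩ hs'
  · exact hit_of_conn C hK hz'' huc j (by omega)

/-- a cycle of at least `l` vertices is not contained in a small set -/
lemma exists_outside (C : Ctx G H w D γ S τ l) {K : Finset V} (hK : K ∈ cycs H) {x : V} (hx : x ∈ K)
    (F : Finset V) (hF : F.card < l) : ∃ y ∈ K, y ∉ F := by
  by_contra hcon
  push Not at hcon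
  have h1 : K ⊆ F := hcon
  have h2 := Finset.card_le_card h1
  have h3 := C.long x (cycs_cov hK hx)
  rw [cycs_eq hK hx] at h3
  omega

lemma hit_of_mem (C : Ctx G H w D γ S τ l) {K : Finset V} (hK : K ∈ cycs H) {x : V} (hx : x ∈ K)
    (hxo : x ∈ om G γ w D) {s : ℕ} (hs : s < S) (h1 : τ s + 15 * w ≤ G.dist (γ 0) x)
    (h2 : G.dist (γ 0) x ≤ τ (s + 1) + 15 * w) : hit G w D γ τ s K ∨ hit G w D γ τ (s + 1) K := by
  have t0 : τ 0 ≤ τ s := tau_le C (Nat.zero_le s) (by omega)
  have t4 := tau_le C (show s + 1 ≤ S by omega) (le_refl S)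
  have hlo := C.lo
  have hhi := C.hi
  obtain ⟨y, hy, hyF⟩ := exists_outside C hK hx (strip G γ w D (τ s + 15 * w) (τ (s + 1) + 15 * w)) (by
    have h3 := C.small s hs
    have h4 : (strip G γ w D (τ s + 15 * w) (τ (s + 1) + 15 * w)).card ≤
        (strip G γ w D (τ s) (τ (s + 1) + 30 * w)).card := by
      refine Finset.card_le_card ?_
      intro v hv
      rw [mem_strip] at hv ⊢
      exact ⟨hv.1, by omega, by omega⟩
    omega)
  obtain ⟨u, hu, huo, huc, huh⟩ := exit_strip C hK (by omega) (by omega) hx (mem_strip.2 ⟨hxo, h1, h2⟩) hy hyF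
  rcases huh with h | h
  · exact Or.inl ⟨u, hu, huo, h⟩
  · exact Or.inr ⟨u, hu, huo, h⟩

/-- a cycle that hits `s` hits a neighbour of `s` -/
lemma hit_two (C : Ctx G H w D γ S τ l) {K : Finset V} (hK : K ∈ cycs H) {s : ℕ} (h0 : 1 ≤ s) (hs : s < S)
    (h : hit G w D γ τ s K) : hit G w D γ τ (s - 1) K ∨ hit G w D γ τ (s + 1) K := by
  obtain ⟨x, hx, hxo, hxh⟩ := h
  obtain ⟨q, rfl⟩ : ∃ q, s = q + 1 := ⟨s - 1, by omega⟩
  rw [Nat.add_sub_cancel]
  have t0 : τ 0 ≤ τ q := tau_le C (Nat.zero_le q) (by omega)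
  have t1 := C.step q (by omega)
  have t2 := C.step (q + 1) hs
  have t4 := tau_le C (show q + 1 + 1 ≤ S by omega) (le_refl S)
  have hlo := C.lo
  have hhi := C.hi
  obtain ⟨y, hy, hyF⟩ := exists_outside C hK hx (strip G γ w D (τ q + 15 * w) (τ (q + 1 + 1) + 15 * w)) (by
    have h3 := C.small q (by omega)
    have h5 := C.small (q + 1) hs
    have h4 : (strip G γ w D (τ q + 15 * w) (τ (q + 1 + 1) + 15 * w)).card ≤
        (strip G γ w D (τ q) (τ (q + 1) + 30 * w)).card + (strip G γ w D (τ (q + 1)) (τ (q + 1 + 1) + 30 * w)).card := by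
      refine le_trans (Finset.card_le_card ?_) (Finset.card_union_le _ _)
      intro v hv
      rw [Finset.mem_union, mem_strip, mem_strip]
      rw [mem_strip] at hv
      by_cases hc : G.dist (γ 0) v ≤ τ (q + 1) + 30 * w
      · exact Or.inl ⟨hv.1, by omega, hc⟩
      · exact Or.inr ⟨hv.1, by omega, by omega⟩
    omega)
  obtain ⟨u, hu, huo, huc, huh⟩ := exit_strip C hK (by omega) (by omega) hx
    (mem_strip.2 ⟨hxo, by omega, by omega⟩) hy hyF
  rcases huh with h | h
  · exact Or.inl ⟨u, hu, huo, h⟩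
  · exact Or.inr ⟨u, hu, huo, h⟩

/-- the cycles that hit something but not `0`: the set of hit windows is an interval -/
lemma interval (C : Ctx G H w D γ S τ l) {K : Finset V} (hK : K ∈ cycs H) (h0 : ¬ hit G w D γ τ 0 K)
    (h1 : ∃ s ≤ S, hit G w D γ τ s K) :
    ∃ a b, 1 ≤ a ∧ a ≤ b ∧ b ≤ S ∧ (∀ s, s ≤ S → (hit G w D γ τ s K ↔ a ≤ s ∧ s ≤ b)) ∧ (b < S → a < b) := by
  obtain ⟨s, hs, hsK⟩ := h1
  have hex : ∃ s, hit G w D γ τ s K ∧ s ≤ S := ⟨s, hsK, hs⟩
  set a := Nat.find hex with ha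
  have ha1 := Nat.find_spec hex
  rw [← ha] at ha1
  set b := Nat.findGreatest (fun s => hit G w D γ τ s K) S with hb
  have hb1 : hit G w D γ τ b K := Nat.findGreatest_spec (P := fun s => hit G w D γ τ s K) hs hsK
  have hb2 : b ≤ S := Nat.findGreatest_le S
  have hb3 : ∀ s, s ≤ S → hit G w D γ τ s K → s ≤ b := fun s hs h => Nat.le_findGreatest hs h
  have ha2 : ∀ s, s ≤ S → hit G w D γ τ s K → a ≤ s := fun s hs h => Nat.find_min' hex ⟨h, hs⟩
  have ha3 : 1 ≤ a := by
    rcases Nat.eq_zero_or_pos a with h | h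
    · rw [h] at ha1
      exact absurd ha1.1 h0
    · exact h
  have hconv : ∀ s, s ≤ S → (hit G w D γ τ s K ↔ a ≤ s ∧ s ≤ b) := by
    intro t ht
    constructor
    · exact fun h => ⟨ha2 t ht h, hb3 t ht h⟩
    · rintro ⟨h2, h3⟩
      by_contra hcon
      have h4 : a < t := lt_of_le_of_ne h2 (fun h => hcon (h ▸ ha1.1))
      have h5 : t < b := lt_of_le_of_ne h3 (fun h => hcon (h ▸ hb1))
      exact h0 (gap_low C hK h4 h5 hb2 ha1.1 hcon hb1 0 (Nat.zero_le _))
  refine ⟨a, b, ha3, ha2 b hb2 hb1, hb2, hconv, ?_⟩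
  intro hbS
  by_contra hcon
  have hab : a = b := le_antisymm (ha2 b hb2 hb1) (by omega)
  rcases hit_two C hK (by omega) hbS hb1 with h | h
  · have := ha2 _ (by omega) h
    omega
  · have := hb3 _ (by omega) h
    omega


lemma locate (h : ℕ) : ∀ n m, m < n → τ m + 15 * w ≤ h → h ≤ τ n + 15 * w →
    ∃ s, m ≤ s ∧ s < n ∧ τ s + 15 * w ≤ h ∧ h ≤ τ (s + 1) + 15 * w := by
  intro n
  induction n with
  | zero => intro m hm; omega
  | succ n ih =>
    intro m hm h1 h2
    rcases Nat.lt_or_ge m n with h3 | h3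
    · by_cases h4 : h ≤ τ n + 15 * w
      · obtain ⟨s, a1, a2, a3, a4⟩ := ih m h3 h1 h4
        exact ⟨s, a1, by omega, a3, a4⟩
      · exact ⟨n, h3.le, by omega, by omega, h2⟩
    · have : m = n := by omega
      subst this
      exact ⟨m, le_refl _, by omega, h1, h2⟩

theorem main (C : Ctx G H w D γ S τ l) (hS : 1 ≤ S) (hG : GluepStatement.{u}) (hE : EnumStatement.{u}) :
    ∃ P, IsP G P ∧ ((cov H).filter (fun x => x ∈ om G γ w D ∧ τ 0 + 30 * w ≤ G.dist (γ 0) x ∧
    G.dist (γ 0) x ≤ τ S)).card ≤ 4 * P.length := by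
  set X := (cov H).filter (fun x => x ∈ om G γ w D ∧ τ 0 + 30 * w ≤ G.dist (γ 0) x ∧
    G.dist (γ 0) x ≤ τ S) with hX
  have hXm : ∀ x ∈ X, x ∈ cov H ∧ ∃ s ≤ S, hit G w D γ τ s (cyc H x) := by
    intro x hx
    rw [hX, Finset.mem_filter] at hx
    obtain ⟨hc, ho, h1, h2⟩ := hx
    refine ⟨hc, ?_⟩
    obtain ⟨s, _, h3, h4, h5⟩ := locate (τ := τ) (w := w) (G.dist (γ 0) x) S 0 hS (by omega) (by omega)
    rcases hit_of_mem C (cyc_mem_cycs hc) self_mem_cyc ho h3 h4 h5 with h | h
    · exact ⟨s, by omega, h⟩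
    · exact ⟨s + 1, by omega, h⟩
  set XE := X.filter (fun x => hit G w D γ τ 0 (cyc H x)) with hXE
  set XD := X.filter (fun x => ¬ hit G w D γ τ 0 (cyc H x)) with hXD
  have hsplit : XE.card + XD.card = X.card := Finset.card_filter_add_card_filter_not _
  by_cases hcase : X.card ≤ 2 * XE.card
  · rcases Finset.eq_empty_or_nonempty XE with hem | ⟨x0, hx0⟩
    · refine ⟨[γ 0], ⟨by simp, by simp, by simp⟩, ?_⟩
      rw [hem] at hcase
      simp at hcase
      rw [hcase]
      simp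
    · rw [hXE, Finset.mem_filter] at hx0
      obtain ⟨hx0X, hx0h⟩ := hx0
      obtain ⟨c, hc, hcm⟩ := hE V G H C.cf x0 (hXm x0 hx0X).1
      refine ⟨c, ⟨hc.1.1, hc.1.2.1.imp (fun a b h => C.cf.le h), hc.1.2.2⟩, ?_⟩
      have h1 : XE ⊆ c.toFinset := by
        intro x hx
        rw [hXE, Finset.mem_filter] at hx
        have h2 := hit_unique C (Nat.zero_le S) (cyc_mem_cycs (hXm x hx.1).1) (cyc_mem_cycs (hXm x0 hx0X).1)
          hx.2 hx0h
        rw [List.mem_toFinset, hcm]
        have h3 : x ∈ cyc H x := self_mem_cyc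
        rw [h2] at h3
        exact mem_cyc.1 h3
      have h2 := Finset.card_le_card h1
      have h3 := List.toFinset_card_le c
      omega
  · push Not at hcase
    set DD := (cycs H).filter (fun K => ¬ hit G w D γ τ 0 K ∧ ∃ s ≤ S, hit G w D γ τ s K) with hDD
    have hDm : ∀ K ∈ DD, K ∈ cycs H ∧ ¬ hit G w D γ τ 0 K ∧ ∃ s ≤ S, hit G w D γ τ s K := by
      intro K hK
      rw [hDD, Finset.mem_filter] at hK
      exact hK
    have hXDm : ∀ x ∈ XD, cyc H x ∈ DD := by
      intro x hx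
      rw [hXD, Finset.mem_filter] at hx
      rw [hDD, Finset.mem_filter]
      exact ⟨cyc_mem_cycs (hXm x hx.1).1, hx.2, (hXm x hx.1).2⟩
    have hDne : DD.Nonempty := by
      have : XD.Nonempty := by
        rw [← Finset.card_pos]
        omega
      obtain ⟨x, hx⟩ := this
      exact ⟨_, hXDm x hx⟩
    obtain ⟨N, hN⟩ : ∃ N, DD.card = N + 1 := ⟨DD.card - 1, by
      have := Finset.card_pos.2 hDne
      omega⟩
    have hint : ∀ K : Finset V, ∃ a b, K ∈ DD → (1 ≤ a ∧ a ≤ b ∧ b ≤ S ∧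
        (∀ s, s ≤ S → (hit G w D γ τ s K ↔ a ≤ s ∧ s ≤ b)) ∧ (b < S → a < b)) := by
      intro K
      by_cases hK : K ∈ DD
      · obtain ⟨h1, h2, h3⟩ := hDm K hK
        obtain ⟨a, b, h⟩ := interval C h1 h2 h3
        exact ⟨a, b, fun _ => h⟩
      · exact ⟨0, 0, fun h => absurd h hK⟩
    choose a b hab using hint
    have hhb : ∀ K ∈ DD, hit G w D γ τ (b K) K := fun K hK =>
      ((hab K hK).2.2.2.1 (b K) (hab K hK).2.2.1).2 ⟨(hab K hK).2.1, le_refl _⟩
    have hha : ∀ K ∈ DD, hit G w D γ τ (a K) K := fun K hK =>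
      ((hab K hK).2.2.2.1 (a K) (le_trans (hab K hK).2.1 (hab K hK).2.2.1)).2 ⟨le_refl _, (hab K hK).2.1⟩
    obtain ⟨Dc, hD1, hD2, hD3⟩ := sort_fun b N DD hN (by
      intro K hK K' hK' hbb
      have h1 := hhb K hK
      have h2 := hhb K' hK'
      have hbb' : b K = b K' := hbb
      rw [← hbb'] at h2
      exact hit_unique C (hab K hK).2.2.1 (hDm K hK).1 (hDm K' hK').1 h1 h2)
    -- consecutive cycles
    have hnext : ∀ i < N, ∀ K ∈ DD, b (Dc i) < b K → b (Dc (i + 1)) ≤ b K := by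
      intro i hi K hK hlt
      obtain ⟨j, hj, rfl⟩ := hD2 K hK
      have hij : i < j := by
        by_contra hcon
        rcases Nat.lt_or_ge j i with h | h
        · have := hD3 j i h hi.le
          omega
        · have : j = i := by omega
          subst this
          omega
      rcases Nat.lt_or_ge (i + 1) j with h | h
      · exact (hD3 (i + 1) j h hj).le
      · have : j = i + 1 := by omega
        rw [this]
    have hf1 : ∀ i < N, b (Dc i) < a (Dc (i + 1)) := by
      intro i hi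
      by_contra hcon
      push Not at hcon
      have hK := hD1 i hi.le
      have hK' := hD1 (i + 1) hi
      have hlt := hD3 i (i + 1) (Nat.lt_succ_self i) hi
      have h1 : hit G w D γ τ (b (Dc i)) (Dc (i + 1)) :=
        ((hab _ hK').2.2.2.1 _ (hab _ hK).2.2.1).2 ⟨hcon, hlt.le⟩
      have h2 := hit_unique C (hab _ hK).2.2.1 (hDm _ hK).1 (hDm _ hK').1 (hhb _ hK) h1
      rw [← h2] at hlt
      exact lt_irrefl _ hlt
    have hf2 : ∀ i < N, ∀ s, b (Dc i) < s → s < a (Dc (i + 1)) → ∀ K ∈ cycs H, ¬ hit G w D γ τ s K := by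
      intro i hi s hs1 hs2 K hK hh
      have hKi := hD1 i hi.le
      have hKj := hD1 (i + 1) hi
      have hsS : s ≤ S := by
        have := (hab _ hKj).2.1
        have := (hab _ hKj).2.2.1
        omega
      by_cases h0 : hit G w D γ τ 0 K
      · -- K hits 0 and s, not b (Dc i)
        have hb1 : 1 ≤ b (Dc i) := le_trans (hab _ hKi).1 (hab _ hKi).2.1
        have hnb : ¬ hit G w D γ τ (b (Dc i)) K := by
          intro h
          have h2 := hit_unique C (hab _ hKi).2.2.1 (hDm _ hKi).1 hK (hhb _ hKi) h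
          rw [← h2] at h0
          exact (hDm _ hKi).2.1 h0
        have h3 := gap_high C hK hb1 hs1 hsS h0 hnb hh (a (Dc (i + 1))) hs2.le
          (le_trans (hab _ hKj).2.1 (hab _ hKj).2.2.1)
        have h4 := hit_unique C (le_trans (hab _ hKj).2.1 (hab _ hKj).2.2.1) (hDm _ hKj).1 hK (hha _ hKj) h3
        rw [← h4] at h0
        exact (hDm _ hKj).2.1 h0
      · have hKD : K ∈ DD := by
          rw [hDD, Finset.mem_filter]
          exact ⟨hK, h0, s, hsS, hh⟩
        have h1 := ((hab K hKD).2.2.2.1 s hsS).1 hh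
        have h2 : b (Dc (i + 1)) ≤ b K := hnext i hi K hKD (by omega)
        have h3 : hit G w D γ τ (b (Dc (i + 1))) K := ((hab K hKD).2.2.2.1 _ (hab _ hKj).2.2.1).2
          ⟨by
            have := (hab _ hKj).2.1
            omega, h2⟩
        have h4 := hit_unique C (hab _ hKj).2.2.1 (hDm _ hKj).1 hK (hhb _ hKj) h3
        rw [← h4] at h1
        omega
    -- connections
    have hconn : ∀ i, ∃ c : List V, i < N → (IsP G c ∧ (∃ a ∈ Dc i, c.head? = some a) ∧
        (∃ b ∈ Dc (i + 1), c.getLast? = some b) ∧ (∀ v ∈ c.tail.dropLast, v ∉ cov H) ∧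
        ∀ v ∈ c, τ (b (Dc i)) + 14 * w ≤ G.dist (γ 0) v ∧ G.dist (γ 0) v ≤ τ (a (Dc (i + 1))) + 16 * w) := by
      intro i
      by_cases hi : i < N
      swap
      · exact ⟨[], fun h => absurd h hi⟩
      have hKi := hD1 i hi.le
      have hKj := hD1 (i + 1) hi
      have hbS := (hab _ hKi).2.2.1
      have haS : a (Dc (i + 1)) ≤ S := le_trans (hab _ hKj).2.1 (hab _ hKj).2.2.1
      obtain ⟨z, hz, hzo, hzh⟩ := hhb _ hKi
      obtain ⟨z', hz', hzo', hzh'⟩ := hha _ hKj
      have hlt := hf1 i hi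
      have htau := tau_lt C _ _ hlt haS
      obtain ⟨l', hl1, hl2, hl3, hl4⟩ := C.path (τ (b (Dc i)) + 15 * w) (τ (a (Dc (i + 1))) + 15 * w) z hzo z' hzo'
        (by omega) (by omega) (by omega) (by omega)
      obtain ⟨c, c1, c2, c3, c4, c5⟩ := cut (H := H) (A := Dc i) (B := Dc (i + 1)) l'.length l' (le_refl _) hl1
        ⟨z, hz, hl2⟩ ⟨z', hz', hl3⟩ (by
          intro v hv hvc
          obtain ⟨hvo, hv1, hv2⟩ := hl4 v hv
          have hcv : cyc H v ∈ cycs H := cyc_mem_cycs hvc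
          by_cases hA : G.dist (γ 0) v ≤ τ (b (Dc i)) + 16 * w
          · left
            have := C.mono (b (Dc i)) hbS z (cycs_cov (hDm _ hKi).1 hz) v hvc hzo hvo (by omega) (by omega)
              (by omega) (by omega)
            exact (reach_in (hDm _ hKi).1 hz).2 this
          · by_cases hB : τ (a (Dc (i + 1))) + 14 * w ≤ G.dist (γ 0) v
            · right
              have := C.mono (a (Dc (i + 1))) haS z' (cycs_cov (hDm _ hKj).1 hz') v hvc hzo' hvo (by omega)
                (by omega) (by omega) (by omega)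
              exact (reach_in (hDm _ hKj).1 hz').2 this
            · obtain ⟨s, s1, s2, s3, s4⟩ := locate (τ := τ) (w := w) (G.dist (γ 0) v) (a (Dc (i + 1))) (b (Dc i)) hlt
                (by omega) (by omega)
              have key : ∀ t, b (Dc i) ≤ t → t ≤ a (Dc (i + 1)) → hit G w D γ τ t (cyc H v) →
                  v ∈ Dc i ∨ v ∈ Dc (i + 1) := by
                intro t t1 t2 t3
                by_cases e1 : t = b (Dc i)
                · left
                  rw [e1] at t3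
                  have := hit_unique C hbS (hDm _ hKi).1 hcv (hhb _ hKi) t3
                  rw [this]
                  exact self_mem_cyc
                · by_cases e2 : t = a (Dc (i + 1))
                  · right
                    rw [e2] at t3
                    have := hit_unique C haS (hDm _ hKj).1 hcv (hha _ hKj) t3
                    rw [this]
                    exact self_mem_cyc
                  · exact absurd t3 (hf2 i hi t (by omega) (by omega) _ hcv)
              rcases hit_of_mem C hcv self_mem_cyc hvo (show s < S by omega) s3 s4 with h | h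
              · exact key s s1 (by omega) h
              · exact key (s + 1) (by omega) (by omega) h)
      refine ⟨c, fun _ => ⟨c1, c2, c3, c4, fun v hv => ?_⟩⟩
      obtain ⟨_, hv1, hv2⟩ := hl4 v (c5 v hv)
      omega
    choose c hc using hconn
    have hdis : ∀ i j, i < j → j < N → List.Disjoint (c i) (c j) := by
      intro i j hij hj v hvi hvj
      have h1 := ((hc i (by omega)).2.2.2.2 v hvi).2
      have h2 := ((hc j hj).2.2.2.2 v hvj).1
      have hK := hD1 (i + 1) (by omega)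
      have hKj := hD1 j hj.le
      have hKj' := hD1 (j + 1) hj
      have h3 : b (Dc (i + 1)) ≤ b (Dc j) := by
        rcases Nat.lt_or_ge (i + 1) j with h | h
        · exact (hD3 _ _ h hj.le).le
        · have : j = i + 1 := by omega
          rw [this]
      have h4 := hD3 j (j + 1) (Nat.lt_succ_self j) hj
      have h5 := (hab _ hKj').2.2.1
      have h6 := (hab _ hK).2.2.2.2 (by omega)
      have h7 := tau_lt C _ _ h6 (hab _ hK).2.2.1
      have h8 := tau_le C h3 (hab _ hKj).2.2.1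
      have := C.wpos
      omega
    obtain ⟨P, hP, hPs⟩ := hG V G H N Dc c C.cf (fun i hi => (hDm _ (hD1 i hi)).1)
      (by
        intro i hi j hj hij heq
        rcases Nat.lt_or_ge i j with h | h
        · have := hD3 i j h hj
          rw [heq] at this
          exact lt_irrefl _ this
        · have := hD3 j i (by omega) hi
          rw [heq] at this
          exact lt_irrefl _ this)
      (fun i hi => ⟨(hc i hi).1, (hc i hi).2.1, (hc i hi).2.2.1, (hc i hi).2.2.2.1⟩)
      (by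
        intro i hi j hj hij
        rcases Nat.lt_or_ge i j with h | h
        · exact hdis i j h hj
        · exact (hdis j i (by omega) hi).symm)
    refine ⟨P, hP, ?_⟩
    have h1 : XD ⊆ (Finset.range (N + 1)).biUnion Dc := by
      intro x hx
      obtain ⟨i, hi, hiK⟩ := hD2 _ (hXDm x hx)
      rw [Finset.mem_biUnion]
      refine ⟨i, Finset.mem_range.2 (by omega), ?_⟩
      rw [hiK]
      exact self_mem_cyc
    have h2 := (Finset.card_le_card h1).trans Finset.card_biUnion_le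
    omega

end ctx

/-- **CHAINP** -/
theorem chainp (hO : OmegaStatement.{u}) (hG : GluepStatement.{u}) (hE : EnumStatement.{u}) :
    ChainpStatement.{u} := by
  intro V _ G H r w D γ S τ l h1 hcf hlong hS hlo hhi hstep hsmall hmono
  obtain ⟨o1, _, _, o4⟩ := hO V G r w D γ h1
  have hw : w = 2 * r + 1 := h1.w_eq
  exact main (l := l) ⟨h1.vt.conn, hcf, by omega, by
    have := hsmall 0 (by omega)
    omega, hlong, hlo, hhi, hstep, hsmall, o1, o4, hmono⟩ hS hG hE

end Pool.Agent.Lib.MP_688fd0_co.LIN.H3
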