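import Pool.Agent.Lib.MP_688fd0_co.LIN.Iface2
import Pool.Agent.Lib.MP_688fd0_co.LIN.H3.Chainp
import Pool.Agent.Lib.MP_688fd0_co.LP.ConnBasic

/-!
Module CHAINC (helper3): from monochromatic windows to a cycle.
-/

set_option autoImplicit false

namespace Pool.Agent.Lib.MP_688fd0_co.LIN.H3

open Classical
open Pool.Agent.Lib.MP_688fd0_co.LP (IsP Conn Cyc)
open Pool.Agent.Lib.MP_688fd0_co.LIN

universe u

section ctx

variable {V : Type u} [Fintype V]

/-- cutting a path to a connection, for a predicate -/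
lemma cutp {G : SimpleGraph V} {A B : Finset V} (q : V → Prop) : ∀ (n : ℕ) (l : List V), l.length ≤ n → IsP G l →
    (∃ a ∈ A, l.head? = some a) → (∃ b ∈ B, l.getLast? = some b) →
    (∀ v ∈ l, q v → v ∈ A ∨ v ∈ B) →
    ∃ c, IsP G c ∧ (∃ a ∈ A, c.head? = some a) ∧ (∃ b ∈ B, c.getLast? = some b) ∧
      (∀ v ∈ c.tail.dropLast, ¬ q v) ∧ ∀ v ∈ c, v ∈ l := by
  intro n
  induction n with
  | zero =>
    intro l hl hP
    exact absurd (List.length_eq_zero_iff.1 (Nat.le_zero.1 hl)) hP.1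
  | succ n ih =>
    intro l hl hP hA hB hcov
    by_cases hin : ∀ v ∈ l.tail.dropLast, ¬ q v
    · exact ⟨l, hP, hA, hB, hin, fun v hv => hv⟩
    · push Not at hin
      obtain ⟨v, hv, hvc⟩ := hin
      obtain ⟨s, t, hst⟩ := List.append_of_mem hv
      have hne : l.tail ≠ [] := by
        intro h
        rw [h] at hv
        simp at hv
      have h1 : l.tail = (s ++ v :: t) ++ [l.tail.getLast hne] := by
        rw [← hst]
        exact (List.dropLast_append_getLast hne).symm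
      obtain ⟨a, haA, ha⟩ := hA
      have h2 : l = a :: l.tail := by
        cases l with
        | nil => simp at ha
        | cons x l => simp at ha; subst ha; rfl
      set e := l.tail.getLast hne with he
      have h3 : l = (a :: s) ++ (v :: (t ++ [e])) := by
        rw [h2, h1]; simp
      have hvl : v ∈ l := by rw [h3]; simp
      rcases hcov v hvl hvc with hvA | hvB
      · have hin : (v :: (t ++ [e])) <:+: l := ⟨a :: s, [], by rw [h3]; simp⟩
        obtain ⟨c, c1, c2, c3, c4, c5⟩ := ih (v :: (t ++ [e])) (by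
            have := congrArg List.length h3
            simp at this ⊢
            omega) (isP_infix hP hin (by simp)) ⟨v, hvA, by simp⟩ (by
            obtain ⟨b, hbB, hb⟩ := hB
            refine ⟨b, hbB, ?_⟩
            rw [← hb, h3, List.getLast?_append_of_ne_nil _ (by simp)])
            (fun x hx => hcov x (hin.subset hx))
        exact ⟨c, c1, c2, c3, c4, fun x hx => hin.subset (c5 x hx)⟩
      · have hin : ((a :: s) ++ [v]) <:+: l := ⟨[], t ++ [e], by rw [h3]; simp⟩
        obtain ⟨c, c1, c2, c3, c4, c5⟩ := ih ((a :: s) ++ [v]) (by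
            have := congrArg List.length h3
            simp at this ⊢
            omega) (isP_infix hP hin (by simp)) ⟨a, haA, by simp⟩
            ⟨v, hvB, by rw [List.getLast?_append_of_ne_nil _ (by simp)]; rfl⟩
            (fun x hx => hcov x (hin.subset hx))
        exact ⟨c, c1, c2, c3, c4, fun x hx => hin.subset (c5 x hx)⟩

variable {G H : SimpleGraph V} {w D : ℕ} {γ : ℕ → V} {S : ℕ} {τ : ℕ → ℕ} {l : ℕ}

/-- a cycle that hits exactly the windows `a, ..., b` lies between the windows `a - 1` and `b + 1` -/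
lemma between (C : Ctx G H w D γ S τ l) {K : Finset V} (hK : K ∈ cycs H) {a b : ℕ} (ha : 1 ≤ a) (hab : a ≤ b)
    (hb : b + 1 ≤ S) (h : ∀ s, s ≤ S → (hit G w D γ τ s K ↔ a ≤ s ∧ s ≤ b)) :
    K ⊆ strip G γ w D (τ (a - 1) + 15 * w) (τ (b + 1) + 15 * w) := by
  intro y hy
  by_contra hys
  obtain ⟨q, rfl⟩ : ∃ q, a = q + 1 := ⟨a - 1, by omega⟩
  rw [Nat.add_sub_cancel] at hys
  obtain ⟨x, hx, hxo, hxh⟩ := (h (q + 1) (by omega)).2 ⟨le_refl _, hab⟩
  have t0 : τ 0 ≤ τ q := tau_le C (Nat.zero_le q) (by omega)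
  have t1 := tau_lt C (q + 1) q (by omega) (by omega)
  have t2 := tau_lt C (b + 1) (q + 1) (by omega) (by omega)
  have t4 := tau_le C hb (le_refl S)
  have hlo := C.lo
  have hhi := C.hi
  obtain ⟨u, hu, huo, huc, huh⟩ := exit_strip C hK (by omega) (by omega) hx
    (mem_strip.2 ⟨hxo, by omega, by omega⟩) hy hys
  rcases huh with h1 | h1
  · have := (h q (by omega)).1 ⟨u, hu, huo, h1⟩
    omega
  · have := (h (b + 1) hb).1 ⟨u, hu, huo, h1⟩
    omega

lemma interval3 (C : Ctx G H w D γ S τ l) {K : Finset V} (hK : K ∈ cycs H) (h0 : ¬ hit G w D γ τ 0 K)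
    (hS : ¬ hit G w D γ τ S K) (h1 : ∃ s ≤ S, hit G w D γ τ s K) :
    ∃ a b, 1 ≤ a ∧ a + 2 ≤ b ∧ b + 1 ≤ S ∧ (∀ s, s ≤ S → (hit G w D γ τ s K ↔ a ≤ s ∧ s ≤ b)) ∧
      K ⊆ strip G γ w D (τ (a - 1) + 15 * w) (τ (b + 1) + 15 * w) := by
  obtain ⟨a, b, ha, hab, hb, h, h'⟩ := interval C hK h0 h1
  have hbS : b + 1 ≤ S := by
    rcases Nat.lt_or_ge b S with h2 | h2
    · exact h2
    · have : b = S := by omega
      subst this
      exact absurd ((h b (le_refl _)).2 ⟨hab, le_refl _⟩) hS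
  have hsub := between C hK ha hab hbS h
  refine ⟨a, b, ha, ?_, hbS, h, hsub⟩
  by_contra hcon
  have hb2 : b = a + 1 := by
    have := h' (by omega)
    omega
  subst hb2
  obtain ⟨q, rfl⟩ : ∃ q, a = q + 1 := ⟨a - 1, by omega⟩
  rw [Nat.add_sub_cancel] at hsub
  obtain ⟨x, hx, hxo, hxh⟩ := (h (q + 1) (by omega)).2 ⟨le_refl _, hab⟩
  have h3 := C.long x (cycs_cov hK hx)
  rw [cycs_eq hK hx] at h3
  have h4 := Finset.card_le_card hsub
  have s1 := C.small q (by omega)
  have s2 := C.small (q + 1) (by omega)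
  have s3 := C.small (q + 1 + 1) (by omega)
  have h5 : (strip G γ w D (τ q + 15 * w) (τ (q + 1 + 1 + 1) + 15 * w)).card ≤
      (strip G γ w D (τ q) (τ (q + 1) + 30 * w)).card +
      ((strip G γ w D (τ (q + 1)) (τ (q + 1 + 1) + 30 * w)).card +
      (strip G γ w D (τ (q + 1 + 1)) (τ (q + 1 + 1 + 1) + 30 * w)).card) := by
    refine le_trans (Finset.card_le_card ?_) ((Finset.card_union_le _ _).trans
      (Nat.add_le_add_left (Finset.card_union_le _ _) _))
    intro v hv
    rw [Finset.mem_union, Finset.mem_union, mem_strip, mem_strip, mem_strip]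
    rw [mem_strip] at hv
    by_cases hc : G.dist (γ 0) v ≤ τ (q + 1) + 30 * w
    · exact Or.inl ⟨hv.1, by omega, hc⟩
    · by_cases hc' : G.dist (γ 0) v ≤ τ (q + 1 + 1) + 30 * w
      · exact Or.inr (Or.inl ⟨hv.1, by omega, hc'⟩)
      · exact Or.inr (Or.inr ⟨hv.1, by omega, by omega⟩)
  omega

/-- the cycle of a hit window as a list -/
lemma take_cycle (C : Ctx G H w D γ S τ l) (hE : EnumStatement.{u}) (X : Finset V) (s : ℕ) (hs : s ≤ S)
    (hX : ∀ x ∈ X, x ∈ cov H ∧ hit G w D γ τ s (cyc H x)) (hne : X.Nonempty) :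
    ∃ c, Cyc G c ∧ X.card ≤ c.length := by
  obtain ⟨x0, hx0⟩ := hne
  obtain ⟨c, hc, hcm⟩ := hE V G H C.cf x0 (hX x0 hx0).1
  refine ⟨c, ⟨⟨hc.1.1, hc.1.2.1.imp (fun a b h => C.cf.le h), hc.1.2.2⟩, hc.2.1, ?_⟩, ?_⟩
  · obtain ⟨a, b, h1, h2, h3⟩ := hc.2.2
    exact ⟨a, b, h1, h2, C.cf.le h3⟩
  · have h1 : X ⊆ c.toFinset := by
      intro x hx
      have h2 := hit_unique C hs (cyc_mem_cycs (hX x hx).1) (cyc_mem_cycs (hX x0 hx0).1) (hX x hx).2 (hX x0 hx0).2
      rw [List.mem_toFinset, hcm]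
      have h3 : x ∈ cyc H x := self_mem_cyc
      rw [h2] at h3
      exact mem_cyc.1 h3
    exact (Finset.card_le_card h1).trans (List.toFinset_card_le c)

lemma conn_of_isP {F : Set V} {l : List V} {a b : V} (h : IsP G l) (h1 : l.head? = some a)
    (h2 : l.getLast? = some b) (h3 : ∀ v ∈ l, v ∈ F) : Conn G F a b :=
  LP.IsPB.conn ⟨h, h1, h2⟩ h3

theorem mainc (C : Ctx G H w D γ S τ l) (hS : 1 ≤ S) (hG : GluecStatement.{u}) (hE : EnumStatement.{u})
    (a' b' : ℕ) (Q : List V) (hγa : γ a' ∈ om G γ w D) (hγb : γ b' ∈ om G γ w D) (hta : G.dist (γ 0) (γ a') = a')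
    (htb : G.dist (γ 0) (γ b') = b') (ha' : a' + 10 * w ≤ τ 0) (hb' : τ S + 50 * w ≤ b')
    (hQ : IsP G Q) (hQ1 : Q.head? = some (γ a')) (hQ2 : Q.getLast? = some (γ b'))
    (hQ3 : ∀ x ∈ Q, ¬ (x ∈ om G γ w D ∧ a' + 5 * w ≤ G.dist (γ 0) x ∧ G.dist (γ 0) x + 5 * w ≤ b'))
    (hpos : 1 ≤ ((cov H).filter (fun x => x ∈ om G γ w D ∧ τ 0 + 30 * w ≤ G.dist (γ 0) x ∧
    G.dist (γ 0) x ≤ τ S)).card) :
    ∃ cy, Cyc G cy ∧ ((cov H).filter (fun x => x ∈ om G γ w D ∧ τ 0 + 30 * w ≤ G.dist (γ 0) x ∧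
    G.dist (γ 0) x ≤ τ S)).card ≤ 8 * cy.length := by
  set X := (cov H).filter (fun x => x ∈ om G γ w D ∧ τ 0 + 30 * w ≤ G.dist (γ 0) x ∧
    G.dist (γ 0) x ≤ τ S) with hX
  have hXm : ∀ x ∈ X, x ∈ cov H ∧ ∃ s ≤ S, hit G w D γ τ s (cyc H x) := by
    intro x hx
    rw [hX, Finset.mem_filter] at hx
    obtain ⟨hc, ho, h1, h2⟩ := hx
    refine ⟨hc, ?_⟩
    obtain ⟨s, _, h3, h4, h5⟩ := locate (τ := τ) (w := w) (G.dist (γ 0) x) S 0 hS (by omega) (by omega)
    rcases hit_of_mem C (cyc_mem_cycs hc) self_mem_cyc ho h3 h4 h5 with h | h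
    · exact ⟨s, by omega, h⟩
    · exact ⟨s + 1, by omega, h⟩
  set XE := X.filter (fun x => hit G w D γ τ 0 (cyc H x)) with hXE
  set XF := X.filter (fun x => hit G w D γ τ S (cyc H x)) with hXF
  set XD := X.filter (fun x => ¬ hit G w D γ τ 0 (cyc H x) ∧ ¬ hit G w D γ τ S (cyc H x)) with hXD
  have hsplit : X.card ≤ XE.card + (XF.card + XD.card) := by
    refine le_trans (Finset.card_le_card ?_) ((Finset.card_union_le _ _).trans
      (Nat.add_le_add_left (Finset.card_union_le _ _) _))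
    intro x hx
    by_cases h1 : hit G w D γ τ 0 (cyc H x)
    · exact Finset.mem_union_left _ (Finset.mem_filter.2 ⟨hx, h1⟩)
    · by_cases h2 : hit G w D γ τ S (cyc H x)
      · exact Finset.mem_union_right _ (Finset.mem_union_left _ (Finset.mem_filter.2 ⟨hx, h2⟩))
      · exact Finset.mem_union_right _ (Finset.mem_union_right _ (Finset.mem_filter.2 ⟨hx, h1, h2⟩))
  by_cases hcase : X.card ≤ 4 * XE.card
  · obtain ⟨c, h1, h2⟩ := take_cycle C hE XE 0 (Nat.zero_le _) (by
      intro x hx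
      rw [hXE, Finset.mem_filter] at hx
      exact ⟨(hXm x hx.1).1, hx.2⟩) (Finset.card_pos.1 (by omega))
    exact ⟨c, h1, by omega⟩
  by_cases hcase' : X.card ≤ 4 * XF.card
  · obtain ⟨c, h1, h2⟩ := take_cycle C hE XF S (le_refl _) (by
      intro x hx
      rw [hXF, Finset.mem_filter] at hx
      exact ⟨(hXm x hx.1).1, hx.2⟩) (Finset.card_pos.1 (by omega))
    exact ⟨c, h1, by omega⟩
  push Not at hcase hcase'
  set DD := (cycs H).filter (fun K => ¬ hit G w D γ τ 0 K ∧ ¬ hit G w D γ τ S K ∧ ∃ s ≤ S, hit G w D γ τ s K)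
    with hDD
  have hDm : ∀ K ∈ DD, K ∈ cycs H ∧ ¬ hit G w D γ τ 0 K ∧ ¬ hit G w D γ τ S K ∧ ∃ s ≤ S, hit G w D γ τ s K := by
    intro K hK
    rw [hDD, Finset.mem_filter] at hK
    exact hK
  have hXDm : ∀ x ∈ XD, cyc H x ∈ DD := by
    intro x hx
    rw [hXD, Finset.mem_filter] at hx
    rw [hDD, Finset.mem_filter]
    exact ⟨cyc_mem_cycs (hXm x hx.1).1, hx.2.1, hx.2.2, (hXm x hx.1).2⟩
  have hXDne : XD.Nonempty := Finset.card_pos.1 (by omega)
  have hDne : DD.Nonempty := by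
    obtain ⟨x, hx⟩ := hXDne
    exact ⟨_, hXDm x hx⟩
  obtain ⟨N, hN⟩ : ∃ N, DD.card = N + 1 := ⟨DD.card - 1, by
    have := Finset.card_pos.2 hDne
    omega⟩
  have hint : ∀ K : Finset V, ∃ a b, K ∈ DD → (1 ≤ a ∧ a + 2 ≤ b ∧ b + 1 ≤ S ∧
      (∀ s, s ≤ S → (hit G w D γ τ s K ↔ a ≤ s ∧ s ≤ b)) ∧
      K ⊆ strip G γ w D (τ (a - 1) + 15 * w) (τ (b + 1) + 15 * w)) := by
    intro K
    by_cases hK : K ∈ DD
    · obtain ⟨h1, h2, h3, h4⟩ := hDm K hK
      obtain ⟨a, b, h⟩ := interval3 C h1 h2 h3 h4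
      exact ⟨a, b, fun _ => h⟩
    · exact ⟨0, 0, fun h => absurd h hK⟩
  choose a b hab using hint
  have hbS : ∀ K ∈ DD, b K ≤ S := fun K hK => by
    have := (hab K hK).2.2.1
    omega
  have haS : ∀ K ∈ DD, a K ≤ S := fun K hK => by
    have := (hab K hK).2.1
    have := (hab K hK).2.2.1
    omega
  have hle : ∀ K ∈ DD, a K + 2 ≤ b K := fun K hK => (hab K hK).2.1
  have hhb : ∀ K ∈ DD, hit G w D γ τ (b K) K := fun K hK =>
    ((hab K hK).2.2.2.1 (b K) (hbS K hK)).2 ⟨by have := hle K hK; omega, le_refl _⟩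
  have hha : ∀ K ∈ DD, hit G w D γ τ (a K) K := fun K hK =>
    ((hab K hK).2.2.2.1 (a K) (haS K hK)).2 ⟨le_refl _, by have := hle K hK; omega⟩
  obtain ⟨Dc, hD1, hD2, hD3⟩ := sort_fun b N DD hN (by
    intro K hK K' hK' hbb
    have h1 := hhb K hK
    have h2 := hhb K' hK'
    have hbb' : b K = b K' := hbb
    rw [← hbb'] at h2
    exact hit_unique C (hbS K hK) (hDm K hK).1 (hDm K' hK').1 h1 h2)
  have hXDc : XD ⊆ (Finset.range (N + 1)).biUnion Dc := by
    intro x hx
    obtain ⟨i, hi, hiK⟩ := hD2 _ (hXDm x hx)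
    rw [Finset.mem_biUnion]
    refine ⟨i, Finset.mem_range.2 (by omega), ?_⟩
    rw [hiK]
    exact self_mem_cyc
  rcases Nat.eq_zero_or_pos N with hN0 | hN0
  · -- only one cycle
    subst hN0
    obtain ⟨c, h1, h2⟩ := take_cycle C hE XD (b (Dc 0)) (hbS _ (hD1 0 (le_refl _))) (by
      intro x hx
      obtain ⟨i, hi, hiK⟩ := hD2 _ (hXDm x hx)
      have hi0 : i = 0 := by omega
      subst hi0
      rw [hXD, Finset.mem_filter] at hx
      refine ⟨(hXm x hx.1).1, ?_⟩
      rw [← hiK]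
      exact hhb _ (hD1 0 (le_refl _))) hXDne
    exact ⟨c, h1, by omega⟩
  -- consecutive cycles
  have hnext : ∀ i < N, ∀ K ∈ DD, b (Dc i) < b K → b (Dc (i + 1)) ≤ b K := by
    intro i hi K hK hlt
    obtain ⟨j, hj, rfl⟩ := hD2 K hK
    have hij : i < j := by
      by_contra hcon
      rcases Nat.lt_or_ge j i with h | h
      · have := hD3 j i h hi.le
        omega
      · have : j = i := by omega
        subst this
        omega
    rcases Nat.lt_or_ge (i + 1) j with h | h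
    · exact (hD3 (i + 1) j h hj).le
    · have : j = i + 1 := by omega
      rw [this]
  have hf1 : ∀ i < N, b (Dc i) < a (Dc (i + 1)) := by
    intro i hi
    by_contra hcon
    push Not at hcon
    have hK := hD1 i hi.le
    have hK' := hD1 (i + 1) hi
    have hlt := hD3 i (i + 1) (Nat.lt_succ_self i) hi
    have h1 : hit G w D γ τ (b (Dc i)) (Dc (i + 1)) :=
      ((hab _ hK').2.2.2.1 _ (hbS _ hK)).2 ⟨hcon, hlt.le⟩
    have h2 := hit_unique C (hbS _ hK) (hDm _ hK).1 (hDm _ hK').1 (hhb _ hK) h1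
    rw [← h2] at hlt
    exact lt_irrefl _ hlt
  have hf1' : ∀ i j, i < j → j ≤ N → b (Dc i) < a (Dc j) := by
    intro i j hij hj
    obtain ⟨q, rfl⟩ : ∃ q, j = q + 1 := ⟨j - 1, by omega⟩
    have h1 := hf1 q (by omega)
    rcases Nat.lt_or_ge i q with h | h
    · have := hD3 i q h (by omega)
      omega
    · have : i = q := by omega
      rw [this]
      exact h1
  have hf2 : ∀ i < N, ∀ s, b (Dc i) < s → s < a (Dc (i + 1)) → ∀ K ∈ cycs H, ¬ hit G w D γ τ s K := by
    intro i hi s hs1 hs2 K hK hh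
    have hKi := hD1 i hi.le
    have hKj := hD1 (i + 1) hi
    have hbi := hle _ hKi
    have hbj := hle _ hKj
    have hsS : s ≤ S := by
      have := haS _ hKj
      omega
    by_cases h0 : hit G w D γ τ 0 K
    · have hb1 : 1 ≤ b (Dc i) := by omega
      have hnb : ¬ hit G w D γ τ (b (Dc i)) K := by
        intro h
        have h2 := hit_unique C (hbS _ hKi) (hDm _ hKi).1 hK (hhb _ hKi) h
        rw [← h2] at h0
        exact (hDm _ hKi).2.1 h0
      have h3 := gap_high C hK hb1 hs1 hsS h0 hnb hh (a (Dc (i + 1))) hs2.le (haS _ hKj)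
      have h4 := hit_unique C (haS _ hKj) (hDm _ hKj).1 hK (hha _ hKj) h3
      rw [← h4] at h0
      exact (hDm _ hKj).2.1 h0
    · by_cases h0' : hit G w D γ τ S K
      · have hnb : ¬ hit G w D γ τ (a (Dc (i + 1))) K := by
          intro h
          have h2 := hit_unique C (haS _ hKj) (hDm _ hKj).1 hK (hha _ hKj) h
          rw [← h2] at h0'
          exact (hDm _ hKj).2.2.1 h0'
        have haS' : a (Dc (i + 1)) < S := by
          have := (hab _ hKj).2.2.1
          omega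
        have h3 := gap_low C hK hs2 haS' (le_refl S) hh hnb h0' 0 (Nat.zero_le _)
        exact h0 h3
      · have hKD : K ∈ DD := by
          rw [hDD, Finset.mem_filter]
          exact ⟨hK, h0, h0', s, hsS, hh⟩
        have h1 := ((hab K hKD).2.2.2.1 s hsS).1 hh
        have h2 : b (Dc (i + 1)) ≤ b K := hnext i hi K hKD (by omega)
        have h3 : hit G w D γ τ (b (Dc (i + 1))) K := ((hab K hKD).2.2.2.1 _ (hbS _ hKj)).2
          ⟨by omega, h2⟩
        have h4 := hit_unique C (hbS _ hKj) (hDm _ hKj).1 hK (hhb _ hKj) h3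
        rw [← h4] at h1
        omega
  -- connections
  have hconn : ∀ i, i < N → ∃ c : List V, (IsP G c ∧ (∃ a ∈ Dc i, c.head? = some a) ∧
      (∃ b ∈ Dc (i + 1), c.getLast? = some b) ∧ (∀ v ∈ c.tail.dropLast, ∀ j ≤ N, v ∉ Dc j) ∧
      ∀ v ∈ c, v ∈ om G γ w D ∧ τ (b (Dc i)) + 14 * w ≤ G.dist (γ 0) v ∧
        G.dist (γ 0) v ≤ τ (a (Dc (i + 1))) + 16 * w) := by
    intro i hi
    have hKi := hD1 i hi.le
    have hKj := hD1 (i + 1) hi
    obtain ⟨z, hz, hzo, hzh⟩ := hhb _ hKi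
    obtain ⟨z', hz', hzo', hzh'⟩ := hha _ hKj
    have hlt := hf1 i hi
    have htau := tau_lt C _ _ hlt (haS _ hKj)
    obtain ⟨l', hl1, hl2, hl3, hl4⟩ := C.path (τ (b (Dc i)) + 15 * w) (τ (a (Dc (i + 1))) + 15 * w) z hzo z' hzo'
      (by omega) (by omega) (by omega) (by omega)
    obtain ⟨c, c1, c2, c3, c4, c5⟩ := cutp (A := Dc i) (B := Dc (i + 1)) (fun v => v ∈ cov H) l'.length l'
      (le_refl _) hl1 ⟨z, hz, hl2⟩ ⟨z', hz', hl3⟩ (by
        intro v hv hvc
        obtain ⟨hvo, hv1, hv2⟩ := hl4 v hv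
        have hcv : cyc H v ∈ cycs H := cyc_mem_cycs hvc
        by_cases hA : G.dist (γ 0) v ≤ τ (b (Dc i)) + 16 * w
        · left
          have := C.mono (b (Dc i)) (hbS _ hKi) z (cycs_cov (hDm _ hKi).1 hz) v hvc hzo hvo (by omega) (by omega)
            (by omega) (by omega)
          exact (reach_in (hDm _ hKi).1 hz).2 this
        · by_cases hB : τ (a (Dc (i + 1))) + 14 * w ≤ G.dist (γ 0) v
          · right
            have := C.mono (a (Dc (i + 1))) (haS _ hKj) z' (cycs_cov (hDm _ hKj).1 hz') v hvc hzo' hvo (by omega)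
              (by omega) (by omega) (by omega)
            exact (reach_in (hDm _ hKj).1 hz').2 this
          · obtain ⟨s, s1, s2, s3, s4⟩ := locate (τ := τ) (w := w) (G.dist (γ 0) v) (a (Dc (i + 1))) (b (Dc i)) hlt
              (by omega) (by omega)
            have haS' := haS _ hKj
            have key : ∀ t, b (Dc i) ≤ t → t ≤ a (Dc (i + 1)) → hit G w D γ τ t (cyc H v) →
                v ∈ Dc i ∨ v ∈ Dc (i + 1) := by
              intro t t1 t2 t3
              by_cases e1 : t = b (Dc i)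
              · left
                rw [e1] at t3
                have := hit_unique C (hbS _ hKi) (hDm _ hKi).1 hcv (hhb _ hKi) t3
                rw [this]
                exact self_mem_cyc
              · by_cases e2 : t = a (Dc (i + 1))
                · right
                  rw [e2] at t3
                  have := hit_unique C (haS _ hKj) (hDm _ hKj).1 hcv (hha _ hKj) t3
                  rw [this]
                  exact self_mem_cyc
                · exact absurd t3 (hf2 i hi t (by omega) (by omega) _ hcv)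
            rcases hit_of_mem C hcv self_mem_cyc hvo (show s < S by omega) s3 s4 with h | h
            · exact key s s1 (by omega) h
            · exact key (s + 1) (by omega) (by omega) h)
    refine ⟨c, ⟨c1, c2, c3, fun v hv j hj hvj => c4 v hv (cycs_cov (hDm _ (hD1 j hj)).1 hvj), fun v hv => ?_⟩⟩
    obtain ⟨hvo, hv1, hv2⟩ := hl4 v (c5 v hv)
    exact ⟨hvo, by omega, by omega⟩
  have hK0 := hD1 0 (Nat.zero_le _)
  have hKN := hD1 N (le_refl _)
  have hlo := C.lo
  have hhi := C.hi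
  have hw := C.wpos
  -- the closing connection
  have hclose : ∃ c : List V, (IsP G c ∧ (∃ a ∈ Dc N, c.head? = some a) ∧
      (∃ b ∈ Dc 0, c.getLast? = some b) ∧ (∀ v ∈ c.tail.dropLast, ∀ j ≤ N, v ∉ Dc j) ∧
      ∀ v ∈ c, (τ (b (Dc N)) + 14 * w ≤ G.dist (γ 0) v) ∨ v ∈ Q ∨
        G.dist (γ 0) v ≤ τ (a (Dc 0)) + 16 * w) := by
    obtain ⟨z, hz, hzo, hzh⟩ := hhb _ hKN
    obtain ⟨z', hz', hzo', hzh'⟩ := hha _ hK0
    have t1 := tau_le C (hbS _ hKN) (le_refl S)
    have t2 := tau_le C (Nat.zero_le _) (haS _ hK0)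
    obtain ⟨p1, hp1, hp2, hp3, hp4⟩ := C.path (τ (b (Dc N)) + 15 * w) b' z hzo (γ b') hγb
      (by omega) (by omega) (by omega) (by omega)
    obtain ⟨p2, hq1, hq2, hq3, hq4⟩ := C.path a' (τ (a (Dc 0)) + 15 * w) (γ a') hγa z' hzo'
      (by omega) (by omega) (by omega) (by omega)
    set F : Set V := {v | (τ (b (Dc N)) + 14 * w ≤ G.dist (γ 0) v) ∨ v ∈ Q ∨
        G.dist (γ 0) v ≤ τ (a (Dc 0)) + 16 * w} with hF
    have hc1 : Conn G F z (γ b') := conn_of_isP hp1 hp2 hp3 (fun v hv => by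
      obtain ⟨_, h1, _⟩ := hp4 v hv
      left
      omega)
    have hc2 : Conn G F (γ a') (γ b') := conn_of_isP hQ hQ1 hQ2 (fun v hv => Or.inr (Or.inl hv))
    have hc3 : Conn G F (γ a') z' := conn_of_isP hq1 hq2 hq3 (fun v hv => by
      obtain ⟨_, _, h1⟩ := hq4 v hv
      right; right
      omega)
    obtain ⟨l', hl', hlF⟩ := LP.Conn.exists_path ((hc1.trans hc2.symm).trans hc3)
    have hmeet : ∀ v, v ∈ F → (∃ j ≤ N, v ∈ Dc j) → v ∈ Dc N ∨ v ∈ Dc 0 := by
      rintro v hvF ⟨j, hj, hvj⟩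
      by_cases hj0 : j = 0
      · right; rw [← hj0]; exact hvj
      by_cases hjN : j = N
      · left; rw [← hjN]; exact hvj
      exfalso
      have hKj := hD1 j hj
      have hst := (hab _ hKj).2.2.2.2 hvj
      rw [mem_strip] at hst
      obtain ⟨hvo, hv1, hv2⟩ := hst
      have e1 := hf1' 0 j (by omega) hj
      have e2 := hf1' j N (by omega) (le_refl _)
      have e3 := hle _ hK0
      have e4 := hle _ hKN
      have e5 := hle _ hKj
      have hbN := hbS _ hKN
      have haN := haS _ hKN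
      have u1 := tau_lt C (b (Dc N)) (b (Dc j) + 1) (by omega) hbN
      have u2 := tau_lt C (a (Dc j) - 1) (a (Dc 0)) (by omega) (by omega)
      have u3 := tau_le C (Nat.zero_le (a (Dc j) - 1)) (by omega)
      have u4 := tau_le C (show b (Dc j) + 1 ≤ S by omega) (le_refl S)
      rcases hvF with h | h | h
      · omega
      · exact hQ3 v h ⟨hvo, by omega, by omega⟩
      · omega
    obtain ⟨c, c1, c2, c3, c4, c5⟩ := cutp (A := Dc N) (B := Dc 0) (fun v => ∃ j ≤ N, v ∈ Dc j) l'.length l'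
      (le_refl _) hl'.1 ⟨z, hz, hl'.2.1⟩ ⟨z', hz', hl'.2.2⟩ (fun v hv hvj => hmeet v (hlF v hv) hvj)
    exact ⟨c, c1, c2, c3, fun v hv j hj hvj => c4 v hv ⟨j, hj, hvj⟩, fun v hv => hlF v (c5 v hv)⟩
  obtain ⟨cN, hcN1, hcN2, hcN3, hcN4, hcN5⟩ := hclose
  choose! c0 hc0 using hconn
  set c : ℕ → List V := fun i => if i < N then c0 i else cN with hcdef
  have hcl : ∀ i, i < N → c i = c0 i := fun i hi => by simp only [hcdef, if_pos hi]
  have hcr : c N = cN := by simp only [hcdef, lt_irrefl, if_false]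
  have hdis : ∀ i j, i < j → j ≤ N → List.Disjoint (c i) (c j) := by
    intro i j hij hj v hvi hvj
    have hiN : i < N := by omega
    rw [hcl i hiN] at hvi
    obtain ⟨hvo, h1a, h1⟩ := (hc0 i hiN).2.2.2.2 v hvi
    rcases Nat.lt_or_ge j N with hjN | hjN
    · rw [hcl j hjN] at hvj
      obtain ⟨_, h2, _⟩ := (hc0 j hjN).2.2.2.2 v hvj
      have hK := hD1 (i + 1) (by omega)
      have hKj := hD1 j hjN.le
      have h3 : b (Dc (i + 1)) ≤ b (Dc j) := by
        rcases Nat.lt_or_ge (i + 1) j with h | h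
        · exact (hD3 _ _ h hjN.le).le
        · have : j = i + 1 := by omega
          rw [this]
      have h6 := hle _ hK
      have h7 := tau_lt C (b (Dc (i + 1))) (a (Dc (i + 1))) (by omega) (hbS _ hK)
      have h8 := tau_le C h3 (hbS _ hKj)
      omega
    · have hjN' : j = N := by omega
      subst hjN'
      rw [hcr] at hvj
      have hK := hD1 (i + 1) (by omega)
      have hKi := hD1 i hiN.le
      have h3 : b (Dc (i + 1)) ≤ b (Dc j) := by
        rcases Nat.lt_or_ge (i + 1) j with h | h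
        · exact (hD3 _ _ h (le_refl _)).le
        · have : j = i + 1 := by omega
          rw [this]
      have h3' : b (Dc 0) ≤ b (Dc i) := by
        rcases Nat.eq_zero_or_pos i with h | h
        · rw [h]
        · exact (hD3 _ _ h hiN.le).le
      have h6 := hle _ hK
      have h6' := hle _ hK0
      have h7 := tau_lt C (b (Dc (i + 1))) (a (Dc (i + 1))) (by omega) (hbS _ hK)
      have h8 := tau_le C h3 (hbS _ hKN)
      have h9 := tau_lt C (b (Dc i)) (a (Dc 0)) (by omega) (hbS _ hKi)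
      have h10 := tau_le C (Nat.zero_le _) (haS _ hK0)
      have h11 := tau_le C (haS _ hK) (le_refl S)
      rcases hcN5 v hvj with h | h | h
      · omega
      · exact hQ3 v h ⟨hvo, by omega, by omega⟩
      · omega
  obtain ⟨P, hP, hPs⟩ := hG V G H N Dc c C.cf hN0 (fun i hi => (hDm _ (hD1 i hi)).1)
    (by
      intro i hi j hj hij heq
      rcases Nat.lt_or_ge i j with h | h
      · have := hD3 i j h hj
        rw [heq] at this
        exact lt_irrefl _ this
      · have := hD3 j i (by omega) hi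
        rw [heq] at this
        exact lt_irrefl _ this)
    (by
      intro i hi
      rcases Nat.lt_or_ge i N with h | h
      · rw [hcl i h, Nat.mod_eq_of_lt (by omega : i + 1 < N + 1)]
        exact ⟨(hc0 i h).1, (hc0 i h).2.1, (hc0 i h).2.2.1, (hc0 i h).2.2.2.1⟩
      · have : i = N := by omega
        rw [this, hcr, Nat.mod_self]
        exact ⟨hcN1, hcN2, hcN3, hcN4⟩)
    (by
      intro i hi j hj hij
      rcases Nat.lt_or_ge i j with h | h
      · exact hdis i j h hj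
      · exact (hdis j i (by omega) hi).symm)
  refine ⟨P, hP, ?_⟩
  have h2 := (Finset.card_le_card hXDc).trans Finset.card_biUnion_le
  omega

end ctx

/-- **CHAINC** -/
theorem chainc (hO : OmegaStatement.{u}) (hG : GluecStatement.{u}) (hE : EnumStatement.{u}) :
    ChaincStatement.{u} := by
  intro V _ G H r w D γ S τ l a b Q h1 hcf hlong hS ha0 hlo hhi hbD hstep hQ hQ1 hQ2 hQ3 hsmall hmono hpos
  obtain ⟨o1, _, _, o4⟩ := hO V G r w D γ h1
  have hw : w = 2 * r + 1 := h1.w_eq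
  have C : Ctx G H w D γ S τ l := ⟨h1.vt.conn, hcf, by omega, by
    have := hsmall 0 (by omega)
    omega, hlong, by omega, by omega, hstep, hsmall, o1, o4, hmono⟩
  have ht := tau_le C (Nat.zero_le S) (le_refl S)
  have hmem : ∀ t, 20 * w ≤ t → t + 20 * w ≤ D → γ t ∈ om G γ w D ∧ G.dist (γ 0) (γ t) = t := by
    intro t h2 h3
    constructor
    · unfold om
      rw [Finset.mem_filter]
      exact ⟨Finset.mem_univ _, t, by omega, by omega, by rw [SimpleGraph.dist_self]; omega⟩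
    · have := h1.geo 0 t (Nat.zero_le _) (by omega)
      simpa using this
  exact mainc C hS hG hE a b Q (hmem a ha0 (by omega)).1 (hmem b (by omega) hbD).1 (hmem a ha0 (by omega)).2
    (hmem b (by omega) hbD).2 hlo hhi hQ hQ1 hQ2 hQ3 hpos

end Pool.Agent.Lib.MP_688fd0_co.LIN.H3
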